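import Pool.Agent.Q32.SK.Stm

/-!
# New edges are not used by closed trajectories
-/

set_option autoImplicit false

namespace Q95.SK

open Function Q32.SK

section

variable {G M : Type} [Group G] [MulAction G M] {S S' : Subgroup G} {φ : S ≃* S'}
  {p : Set (M × M)} {x y : M}

/-- the new edges -/
def New (φ : S ≃* S') (x y : M) : Set (M × M) :=
  {q | ∃ s : S, q = ((s : G) • x, (φ s : G) • y)}

/-- all consecutive pairs of letters are not bad -/
def NB (S S' : Subgroup G) (w : List (G × Bool)) : Prop :=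
  ∀ (u v : List (G × Bool)) (l l' : G × Bool), w = u ++ l :: l' :: v → ¬ Bad S S' l l'

theorem NB.tail {l : G × Bool} {w : List (G × Bool)} (h : NB S S' (l :: w)) : NB S S' w := by
  intro u v l₁ l₂ hw
  exact h (l :: u) v l₁ l₂ (by rw [hw]; rfl)

theorem NB.head {l l' : G × Bool} {w : List (G × Bool)} (h : NB S S' (l :: l' :: w)) :
    ¬ Bad S S' l l' := h [] w l l' rfl

theorem orb (hs : ∀ g : G, g • y = y → g = 1) {g : G} {s s' : S}
    (h : g • (φ s : G) • y = (φ s' : G) • y) : g ∈ S' := by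
  have h1 : ((φ s' : G)⁻¹ * g * (φ s : G)) • y = y := by
    rw [mul_smul, mul_smul, h, inv_smul_smul]
  have h2 := hs _ h1
  have h3 : g = (φ s' : G) * (φ s : G)⁻¹ := by
    have : (φ s' : G) * ((φ s' : G)⁻¹ * g * (φ s : G)) * (φ s : G)⁻¹ = g := by group
    rw [h2] at this
    rw [← this]
    simp
  rw [h3]
  exact S'.mul_mem (φ s').2 (S'.inv_mem (φ s).2)

theorem notx (hx : ∀ g : G, g • y ≠ x) {g h : G} (e : g • y = h • x) : False := by
  apply hx (h⁻¹ * g)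
  rw [mul_smul, e, inv_smul_smul]

/-- a forward new edge is followed by a bad pair -/
theorem fwd (hs : ∀ g : G, g • y = y → g = 1) (hp : ∀ g : G, ∀ q ∈ p, g • y ≠ q.1 ∧ g • y ≠ q.2)
    (hx : ∀ g : G, g • y ≠ x) {l l' : G × Bool} {a b c : M} (hl : l.2 = true)
    (hN : (l.1 • a, b) ∈ New φ x y) (h' : Stp (p ∪ New φ x y) l' b c) : Bad S S' l l' := by
  obtain ⟨s, hN⟩ := hN
  have hb : b = (φ s : G) • y := congrArg Prod.snd hN
  subst hb
  rcases h' with ⟨h1, h2 | ⟨s', h2⟩⟩ | ⟨h1, h2 | ⟨s', h2⟩⟩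
  · exact absurd (mul_smul l'.1 (φ s : G) y) (hp _ _ h2).1
  · exfalso
    have h3 : l'.1 • (φ s : G) • y = (s' : G) • x := congrArg Prod.fst h2
    rw [← mul_smul] at h3
    exact notx hx h3
  · exact absurd (mul_smul l'.1 (φ s : G) y) (hp _ _ h2).2
  · have h3 : l'.1 • (φ s : G) • y = (φ s' : G) • y := congrArg Prod.snd h2
    exact Or.inl ⟨hl, h1, orb hs h3⟩

/-- a backward new edge comes after a bad pair -/
theorem bwd (hs : ∀ g : G, g • y = y → g = 1) (hp : ∀ g : G, ∀ q ∈ p, g • y ≠ q.1 ∧ g • y ≠ q.2)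
    (hx : ∀ g : G, g • y ≠ x) {l l' : G × Bool} {a b c : M} (hl : l'.2 = false)
    (hN : (c, l'.1 • b) ∈ New φ x y) (h' : Stp (p ∪ New φ x y) l a b) : Bad S S' l l' := by
  obtain ⟨s', hN⟩ := hN
  have hb : l'.1 • b = (φ s' : G) • y := congrArg Prod.snd hN
  have hb' : (l'.1⁻¹ * (φ s' : G)) • y = b := by
    rw [mul_smul, ← hb, inv_smul_smul]
  rcases h' with ⟨h1, h2 | ⟨s, h2⟩⟩ | ⟨h1, h2 | ⟨s, h2⟩⟩
  · exact absurd hb' (hp _ _ h2).2
  · have h3 : b = (φ s : G) • y := congrArg Prod.snd h2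
    rw [h3] at hb
    exact Or.inl ⟨h1, hl, orb hs hb⟩
  · exact absurd hb' (hp _ _ h2).1
  · exfalso
    have h3 : b = (s : G) • x := congrArg Prod.fst h2
    rw [h3] at hb'
    exact notx hx hb'

/-- a step between two steps -/
theorem mid (hs : ∀ g : G, g • y = y → g = 1) (hp : ∀ g : G, ∀ q ∈ p, g • y ≠ q.1 ∧ g • y ≠ q.2)
    (hx : ∀ g : G, g • y ≠ x) {l₀ l l₁ : G × Bool} {a₀ a b b₁ : M}
    (h0 : Stp (p ∪ New φ x y) l₀ a₀ a) (h : Stp (p ∪ New φ x y) l a b)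
    (h1 : Stp (p ∪ New φ x y) l₁ b b₁) (n0 : ¬ Bad S S' l₀ l) (n1 : ¬ Bad S S' l l₁) :
    Stp p l a b := by
  rcases h with ⟨e, h2 | h2⟩ | ⟨e, h2 | h2⟩
  · exact Or.inl ⟨e, h2⟩
  · exact absurd (fwd hs hp hx e h2 h1) n1
  · exact Or.inr ⟨e, h2⟩
  · exact absurd (bwd hs hp hx e h2 h0) n0

/-- the first step of a trajectory followed by a step -/
theorem fst_step {q : Set (M × M)} {w : List (G × Bool)} {a b : M} (h : Tr q w a b)
    {l₁ : G × Bool} {b₁ : M} (h1 : Stp q l₁ b b₁) :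
    ∃ (l : G × Bool) (v : List (G × Bool)) (c : M), w ++ [l₁] = l :: v ∧ Stp q l a c := by
  cases h with
  | nil => exact ⟨l₁, [], b₁, rfl, h1⟩
  | cons l w _ y _ hl hw => exact ⟨l, w ++ [l₁], y, rfl, hl⟩

theorem mid_tr (hs : ∀ g : G, g • y = y → g = 1)
    (hp : ∀ g : G, ∀ q ∈ p, g • y ≠ q.1 ∧ g • y ≠ q.2)
    (hx : ∀ g : G, g • y ≠ x) {w : List (G × Bool)} {a b : M}
    (h : Tr (p ∪ New φ x y) w a b) {l₁ : G × Bool} {b₁ : M}
    (h1 : Stp (p ∪ New φ x y) l₁ b b₁) : ∀ (l₀ : G × Bool) (a₀ : M),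
    Stp (p ∪ New φ x y) l₀ a₀ a → NB S S' (l₀ :: (w ++ [l₁])) → Tr p w a b := by
  induction h with
  | nil a =>
    intro _ _ _ _
    exact Tr.nil a
  | cons l w a c b hl hw ih =>
    intro l₀ a₀ h0 hn
    obtain ⟨l', v, c', hv, hst⟩ := fst_step hw h1
    have hn' : NB S S' (l :: (w ++ [l₁])) := hn.tail
    refine Tr.cons l w a c b (mid hs hp hx h0 hl hst hn.head ?_) (ih h1 l a hl hn')
    rw [hv] at hn'
    exact hn'.head

/-- the last step of a trajectory -/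
theorem last_step {q : Set (M × M)} {w : List (G × Bool)} {a b : M} (h : Tr q w a b)
    (hw : w ≠ []) : ∃ (v : List (G × Bool)) (l : G × Bool) (c : M), w = v ++ [l] ∧ Stp q l c b := by
  induction h with
  | nil => exact absurd rfl hw
  | cons l w a c b hl hw' ih =>
    rcases hw' with _ | ⟨l', w', _, c', _, hl', hw''⟩
    · exact ⟨[], l, a, rfl, hl⟩
    · obtain ⟨v, l₂, c₂, e, h2⟩ := ih (by simp)
      exact ⟨l :: v, l₂, c₂, by rw [e]; rfl, h2⟩

end

/-- NON -/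
theorem non : S_NON := by
  intro G M _ _ S S' φ p x y hs hp hx w hw z h
  have h' : Tr (p ∪ New φ x y) w z z := h
  obtain ⟨v, ll, c, hv, hst⟩ := last_step h' hw.1
  have h2 := h'
  cases h2 with
  | nil => exact Tr.nil z
  | cons l w₁ _ y' _ hl hw₁ =>
    refine mid_tr hs hp hx h' hl ll c hst ?_
    intro u u' l₁ l₂ hu
    rcases u with _ | ⟨l₃, u⟩
    · simp only [List.nil_append, List.cons_append, List.cons.injEq] at hu
      obtain ⟨rfl, rfl, -⟩ := hu
      refine hw.2 v w₁ ll l ?_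
      have : l :: w₁ ++ l :: w₁ = (v ++ [ll]) ++ l :: w₁ := by rw [← hv]
      rw [this]
      simp
    · simp only [List.cons_append, List.cons.injEq] at hu
      obtain ⟨-, hu⟩ := hu
      refine hw.2 u (u' ++ w₁) l₁ l₂ ?_
      have : l :: w₁ ++ l :: w₁ = (l :: (w₁ ++ [l])) ++ w₁ := by simp
      rw [this, hu]
      simp

end Q95.SK
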