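import Pool.Agent.Q32.SK.Stm

/-!
# A tuple can be moved to a full tuple of the same type
-/

set_option autoImplicit false

namespace Q95.SK

open Function Q32.SK

/-- types of tuples pass to extensions -/
theorem pull_ext {k : ℕ} {I : Type} {ar : I → ℕ} {𝒞 : Cls I ar} {A B : Stg k 𝒞} (e : Ext A B)
    {n : ℕ} (a : Fin n → A.M) : B.r.pull (fun i => e.ι (a i)) = A.r.pull a := by
  have h : B.r.pull (fun i => e.ι (a i)) = (B.r.pull e.ι).pull a := rfl
  rw [h, e.str]

/-- fullness passes to extensions -/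
theorem full_ext {k : ℕ} {I : Type} {ar : I → ℕ} {𝒞 : Cls I ar} {A B : Stg k 𝒞} (e : Ext A B)
    (a : Fin k → A.M) (ha : Full A.G A.M A.r a) :
    Full B.G B.M B.r (fun i => e.ι (a i)) := by
  refine ⟨fun i j h => ha.1 (e.inj h), ?_⟩
  intro π hπ
  have h1 : B.r.pull (fun i => e.ι (a (π i))) = A.r.pull (fun i => a (π i)) :=
    pull_ext e (fun i => a (π i))
  have h2 : A.r.pull (fun i => a (π i)) = A.r.pull a := by
    rw [← h1, ← pull_ext e a]
    exact hπ
  obtain ⟨g, hg⟩ := ha.2 π h2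
  refine ⟨e.φ g, fun i => ?_⟩
  rw [← e.eqv, hg]

/-- PAI -/
theorem pai : S_PAI := by
  intro h1 h2 h3 hRIC h5 h6 h7 h8 h9 h10 h11 hTST k I ar 𝒞 hE A b a hb hab ha
  by_cases hg : ∃ g : A.G, ∀ i, g • b i ∈ Set.range a
  · obtain ⟨g, hg⟩ := hg
    choose π hπ using hg
    have hinj : Injective π := by
      intro i j hij
      apply hb
      have : g • b i = g • b j := by rw [← hπ i, ← hπ j, hij]
      exact smul_left_cancel g this
    let π' : Equiv.Perm (Fin k) := Equiv.ofBijective π (Finite.injective_iff_bijective.1 hinj)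
    have hπ' : ∀ i, a (π' i) = g • b i := hπ
    have h4 : A.r.pull (fun i => a (π' i)) = A.r.pull a := by
      have e1 : (fun i => a (π' i)) = fun i => g • b i := funext hπ'
      have e2 : A.r.pull (fun i => g • b i) = (A.r.pull (fun x => g • x)).pull b := rfl
      rw [e1, e2, A.good.inv, hab]
    obtain ⟨g', hg'⟩ := ha.2 π' h4
    refine ⟨A, Ext.idm A, g'⁻¹ * g, fun i => ?_⟩
    show (g'⁻¹ * g) • b i = a i
    rw [mul_smul, ← hπ' i, ← hg' i, inv_smul_smul]
  · obtain ⟨B, e, he, hR⟩ := hRIC h1 h2 h3 k I ar 𝒞 hE A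
    have hb' : Injective fun i => e.ι (b i) := fun i j h => hb (e.inj h)
    have hab' : B.r.pull (fun i => e.ι (b i)) = B.r.pull (fun i => e.ι (a i)) := by
      rw [pull_ext, pull_ext, hab]
    have hn : ∀ g : B.G, ¬ ∀ i, g • e.ι (b i) ∈ Set.range (fun i => e.ι (a i)) := by
      intro g' hg'
      obtain ⟨g, rfl⟩ := he g'
      apply hg
      refine ⟨g, fun i => ?_⟩
      obtain ⟨j, hj⟩ := hg' i
      refine ⟨j, e.inj ?_⟩
      rw [e.eqv]
      exact hj
    obtain ⟨C, f, g, hfg⟩ := hTST h5 h6 h7 h8 h9 h10 h11 k I ar 𝒞 B hR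
      (fun i => e.ι (b i)) (fun i => e.ι (a i)) hb' hab' (full_ext e a ha) hn
    exact ⟨C, Ext.comp e f, g, hfg⟩

end Q95.SK
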